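import Pool.Agent.H660.UT.Low

set_option autoImplicit false

/-! # Exact Triangle and circuits with unknown weights (helper698) -/

open scoped Classical
open Finset Filter

namespace Pool.Agent.H698.UW

open Pool.Agent.H698.HF
open Pool.Agent.H660.UT (SolvesT Height lowerT)
open Flat (unknown known)

/-- Partial knowledge about the integer weights of the complete graph on `n` vertices: the weight of
the pair `e` is known to be `w` (`some w`) or unknown (`none`). -/
abbrev Wts (n : ℕ) : Type := Sym2 (Fin n) → Option ℤ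

/-- `WCirc l`: `l` is the list of the functions computed at the gates of a circuit (last gate
first). An input gate reads the weight of a pair `e` and translates it into an element of the ordered
set `D` of states of knowledge, the one for unknown being below the other ones. A constant gate has
a fixed value. Each other gate applies a function of two arguments, nondecreasing in both, to the
values of two earlier gates. -/
inductive WCirc {n : ℕ} {D : Type} [PartialOrder D] : List (Wts n → D) → Prop
  | nil : WCirc []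
  | input {l : List (Wts n → D)} (e : Sym2 (Fin n)) (i : Option ℤ → D) :
      WCirc l → (∀ w, i none ≤ i (some w)) → WCirc ((fun P => i (P e)) :: l)
  | const {l : List (Wts n → D)} (c : D) : WCirc l → WCirc ((fun _ => c) :: l)
  | gate {l : List (Wts n → D)} {φ : D → D → D} {f g : Wts n → D} :
      WCirc l → (∀ a a' b b', a ≤ a' → b ≤ b' → φ a b ≤ φ a' b') → f ∈ l → g ∈ l →
      WCirc ((fun P => φ (f P) (g P)) :: l)

/-- the weights `w` have a triangle of weight zero -/
def HasZero {n : ℕ} (w : Sym2 (Fin n) → ℤ) : Prop :=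
  ∃ i j k : Fin n, i ≠ j ∧ j ≠ k ∧ i ≠ k ∧ w s(i, j) + w s(j, k) + w s(i, k) = 0

/-- only the weights zero are known -/
def zer {n : ℕ} (w : Sym2 (Fin n) → ℤ) : Wts n := fun e => if w e = 0 then some 0 else none

/-- the knowledge `P` contains the three weights of a triangle of weight zero -/
def Found {n : ℕ} (P : Wts n) : Prop :=
  ∃ i j k : Fin n, i ≠ j ∧ j ≠ k ∧ i ≠ k ∧ ∃ a b c : ℤ, P s(i, j) = some a ∧
    P s(j, k) = some b ∧ P s(i, k) = some c ∧ a + b + c = 0

/-- The randomised circuit `l`, which has the form `l ω` with probability `p ω`, decides Exact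
Triangle with unknown weights for the weights in `𝓦` with advantage `δ`: there are output gates
`out ω` and upper sets `acc ω` of values that mean alarm such that for all weights `w` in `𝓦` the
alarm is raised with probability at least `1 / 2 + δ` as soon as the three weights of a triangle of
weight zero are known (`P` is the knowledge, all other weights may be unknown), and it is not raised
with probability at least `1 / 2 + δ` if there is no triangle of weight zero and all weights are
known. -/
def SolvesE {n : ℕ} (𝓦 : Set (Sym2 (Fin n) → ℤ)) (δ : ℝ) {D : Type} [PartialOrder D] {Ω : Type}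
    [Fintype Ω] (p : Ω → ℝ) (l : Ω → List (Wts n → D)) : Prop :=
  (∀ ω, 0 ≤ p ω) ∧ ∑ ω, p ω = 1 ∧
  ∃ (out : Ω → Wts n → D) (acc : Ω → Set D),
    (∀ ω, out ω ∈ l ω) ∧ (∀ ω, IsUpperSet (acc ω)) ∧
    ∀ w ∈ 𝓦,
      (∀ P : Wts n, (∀ e, P e = none ∨ P e = some (w e)) → Found P →
        1 / 2 + δ ≤ ∑ ω ∈ univ.filter (fun ω => out ω P ∈ acc ω), p ω) ∧
      (¬ HasZero w → 1 / 2 + δ ≤
        ∑ ω ∈ univ.filter (fun ω => out ω (fun e => some (w e)) ∉ acc ω), p ω)

/-- the weights zero and one -/
def bits (n : ℕ) : Set (Sym2 (Fin n) → ℤ) := {w | ∀ e, w e = 0 ∨ w e = 1}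

/-- edges have weight zero, other pairs have weight one -/
def kap {n : ℕ} (P : Know (Sym2 (Fin n))) : Wts n :=
  fun e => (P e).map fun b => if b = true then 0 else 1

theorem circ_kap {n : ℕ} {D : Type} [PartialOrder D] {l : List (Wts n → D)} (h : WCirc l) :
    Circ (l.map fun g P => g (kap P)) := by
  induction h with
  | nil => exact Circ.nil
  | @input l e i _ hi ih =>
    rw [List.map_cons]
    exact Circ.input e (fun o => i (o.map fun b => if b = true then 0 else 1)) ih
      (fun b => hi _)
  | @const l c _ ih =>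
    rw [List.map_cons]
    exact Circ.const c ih
  | @gate l φ f g _ hφ hf hg ih =>
    rw [List.map_cons]
    exact Circ.gate ih hφ (List.mem_map_of_mem hf) (List.mem_map_of_mem hg)

theorem hasZero_iff {n : ℕ} (G : SimpleGraph (Fin n)) :
    HasZero (fun e => if e ∈ G.edgeSet then 0 else 1) ↔ ¬ G.CliqueFree 3 := by
  have h01 : ∀ e : Sym2 (Fin n), (0 : ℤ) ≤ (if e ∈ G.edgeSet then 0 else 1) := by
    intro e
    split_ifs <;> norm_num
  have h0 : ∀ e : Sym2 (Fin n), (if e ∈ G.edgeSet then (0 : ℤ) else 1) = 0 ↔ e ∈ G.edgeSet := by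
    intro e
    by_cases h : e ∈ G.edgeSet <;> simp [h]
  constructor
  · rintro ⟨i, j, k, hij, hjk, hik, hsum⟩ hfree
    have h1 := h01 s(i, j)
    have h2 := h01 s(j, k)
    have h3 := h01 s(i, k)
    dsimp only at hsum
    have e1 := (h0 s(i, j)).1 (by linarith)
    have e2 := (h0 s(j, k)).1 (by linarith)
    have e3 := (h0 s(i, k)).1 (by linarith)
    rw [SimpleGraph.mem_edgeSet] at e1 e2 e3
    exact hfree {i, j, k} (SimpleGraph.is3Clique_triple_iff.2 ⟨e1, e3, e2⟩)
  · intro h
    unfold SimpleGraph.CliqueFree at h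
    push Not at h
    obtain ⟨s, hs⟩ := h
    obtain ⟨i, j, k, h1, h2, h3, -⟩ := SimpleGraph.is3Clique_iff.1 hs
    refine ⟨i, j, k, h1.ne, h3.ne, h2.ne, ?_⟩
    dsimp only
    rw [(h0 _).2 ((SimpleGraph.mem_edgeSet G).2 h1), (h0 _).2 ((SimpleGraph.mem_edgeSet G).2 h2),
      (h0 _).2 ((SimpleGraph.mem_edgeSet G).2 h3)]
    norm_num

theorem kap_truths {n : ℕ} (G : SimpleGraph (Fin n)) :
    kap (truths (· ∈ G.edgeSet)) = zer (fun e => if e ∈ G.edgeSet then 0 else 1) := by
  funext e
  unfold kap truths zer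
  by_cases h : e ∈ G.edgeSet <;> simp [h]

theorem kap_full {n : ℕ} (G : SimpleGraph (Fin n)) :
    kap (full (· ∈ G.edgeSet)) = fun e => some (if e ∈ G.edgeSet then 0 else 1) := by
  funext e
  unfold kap full
  by_cases h : e ∈ G.edgeSet <;> simp [h]

theorem lower {t : ℝ} (ht : 0 < t) (h : t < 3) :
    ∃ α : ℝ, 0 < α ∧ ∀ᶠ n : ℕ in atTop,
      ∀ (D : Type) [PartialOrder D] (H : ℕ), 1 ≤ H → Height D H → ∀ (δ : ℝ) (Ω : Type) [Fintype Ω]
        (p : Ω → ℝ) (l : Ω → List (Wts n → D)), (∀ ω, WCirc (l ω)) →
        SolvesE (bits n) δ p l →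
        (δ - (n : ℝ) ^ (-α)) * (n : ℝ) ^ t ≤
          4 * (H : ℝ) ^ 2 * ∑ ω, p ω * ((l ω).length : ℝ) := by
  obtain ⟨α, hα, hmain⟩ := lowerT (θ := t / 2) (by positivity) (by linarith)
  refine ⟨2 * α, by positivity, ?_⟩
  have htend : Tendsto (fun n : ℕ => n ^ 2) atTop atTop :=
    tendsto_pow_atTop (by norm_num)
  filter_upwards [htend.eventually hmain] with n hn
  intro D _ H hH hD δ Ω _ p l hl hs
  obtain ⟨hp, hp1, out, acc, h1, h2, h3⟩ := hs
  have key := hn n le_rfl D H hD δ Ω p (fun ω => (l ω).map fun g P => g (kap P))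
    (fun ω => circ_kap (hl ω)) ⟨hp, hp1, fun ω P => out ω (kap P), acc,
      fun ω => List.mem_map.2 ⟨out ω, h1 ω, rfl⟩, h2, fun G _ => by
        have h4 := h3 (fun e => if e ∈ G.edgeSet then 0 else 1) (by
          intro e
          by_cases h : e ∈ G.edgeSet <;> simp [h])
        refine ⟨fun hG => ?_, fun hG => ?_⟩
        · obtain ⟨i, j, k, g1, g2, g3, g4⟩ := (hasZero_iff G).2 hG
          have h0 : ∀ e : Sym2 (Fin n), (if e ∈ G.edgeSet then (0 : ℤ) else 1) = 0 →
              zer (fun e => if e ∈ G.edgeSet then (0 : ℤ) else 1) e = some 0 := by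
            intro e he
            unfold zer
            rw [if_pos he]
          have h01 : ∀ e : Sym2 (Fin n), (0 : ℤ) ≤ (if e ∈ G.edgeSet then 0 else 1) := by
            intro e
            split_ifs <;> norm_num
          have k1 := h01 s(i, j)
          have k2 := h01 s(j, k)
          have k3 := h01 s(i, k)
          dsimp only at g4
          have h5 := h4.1 (zer fun e => if e ∈ G.edgeSet then (0 : ℤ) else 1) (by
            intro e
            unfold zer
            by_cases h : e ∈ G.edgeSet <;> simp [h])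
            ⟨i, j, k, g1, g2, g3, 0, 0, 0, h0 _ (by linarith), h0 _ (by linarith), h0 _ (by linarith),
              by norm_num⟩
          simp only [kap_truths]
          exact h5
        · have h5 := h4.2 (fun h => (hasZero_iff G).1 h hG)
          simp only [kap_full]
          exact h5⟩
  simp only [List.length_map] at key
  have e1 : (((n ^ 2 : ℕ) : ℝ)) ^ (-α) = (n : ℝ) ^ (-(2 * α)) := by
    push_cast
    rw [← Real.rpow_natCast, ← Real.rpow_mul (Nat.cast_nonneg n)]
    congr 1
    push_cast
    ring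
  have e2 : (((n ^ 2 : ℕ) : ℝ)) ^ (t / 2) = (n : ℝ) ^ t := by
    push_cast
    rw [← Real.rpow_natCast, ← Real.rpow_mul (Nat.cast_nonneg n)]
    congr 1
    push_cast
    ring
  rw [e1, e2] at key
  refine key.trans ?_
  have hE : 0 ≤ ∑ ω, p ω * ((l ω).length : ℝ) :=
    Finset.sum_nonneg fun ω _ => mul_nonneg (hp ω) (Nat.cast_nonneg _)
  have hH' : (1 : ℝ) ≤ H := by exact_mod_cast hH
  refine mul_le_mul_of_nonneg_right ?_ hE
  nlinarith

/-! ### The trivial algorithm -/

section upper

/-- addition of known integers -/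
noncomputable def kadd (x y : Flat ℤ) : Flat ℤ :=
  if h : ∃ a b, x = known a ∧ y = known b then known (h.choose + h.choose_spec.choose)
  else unknown

theorem kadd_known (a b : ℤ) : kadd (known a) (known b) = known (a + b) := by
  have h : ∃ a' b', known a = known a' ∧ known b = known b' := ⟨a, b, rfl, rfl⟩
  unfold kadd
  rw [dif_pos h]
  have h1 := h.choose_spec.choose_spec
  have h2 : a = h.choose := by simpa using h1.1
  have h3 : b = h.choose_spec.choose := by simpa using h1.2
  rw [← h3, ← h2]

theorem kadd_eq {x y : Flat ℤ} {c : ℤ} (h : kadd x y = known c) :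
    ∃ a b, x = known a ∧ y = known b ∧ a + b = c := by
  by_cases hex : ∃ a b, x = known a ∧ y = known b
  · obtain ⟨a, b, rfl, rfl⟩ := hex
    rw [kadd_known] at h
    exact ⟨a, b, rfl, rfl, by simpa using h⟩
  · unfold kadd at h
    rw [dif_neg hex] at h
    exact absurd h (by simp)

theorem kadd_mono (x x' y y' : Flat ℤ) (hx : x ≤ x') (hy : y ≤ y') : kadd x y ≤ kadd x' y' := by
  rw [Flat.le_iff] at hx hy ⊢
  by_cases hex : ∃ a b, x = known a ∧ y = known b
  · obtain ⟨a, b, rfl, rfl⟩ := hex
    rcases hx with hx | hx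
    · exact absurd hx (by simp)
    · rcases hy with hy | hy
      · exact absurd hy (by simp)
      · right; rw [hx, hy]
  · left
    unfold kadd
    rw [dif_neg hex]

/-- the value one if an argument is zero, or the other argument is one; for the arguments sum of
weights and result so far -/
noncomputable def kres (x y : Flat ℤ) : Flat ℤ :=
  if x = known 0 ∨ y = known 1 then known 1 else if x = unknown ∨ y = unknown then unknown
    else known 0

theorem kres_iff (x y : Flat ℤ) : kres x y = known 1 ↔ x = known 0 ∨ y = known 1 := by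
  unfold kres
  by_cases h : x = known 0 ∨ y = known 1
  · rw [if_pos h]; simp [h]
  · rw [if_neg h]
    split_ifs <;> simp [h]

theorem kres_mono (x x' y y' : Flat ℤ) (hx : x ≤ x') (hy : y ≤ y') : kres x y ≤ kres x' y' := by
  rw [Flat.le_iff] at hx hy ⊢
  by_cases h : x = known 0 ∨ y = known 1
  · right
    have h' : x' = known 0 ∨ y' = known 1 := by
      rcases h with h | h
      · left
        rcases hx with hx | hx
        · rw [hx] at h; exact absurd h (by simp)
        · rw [← hx]; exact h
      · right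
        rcases hy with hy | hy
        · rw [hy] at h; exact absurd h (by simp)
        · rw [← hy]; exact h
    unfold kres
    rw [if_pos h, if_pos h']
  · by_cases h2 : x = unknown ∨ y = unknown
    · left
      unfold kres
      rw [if_neg h, if_pos h2]
    · right
      push Not at h2
      rw [hx.resolve_left h2.1, hy.resolve_left h2.2]

/-- the weight as an element of the flat order over the integers -/
def kin (o : Option ℤ) : Flat ℤ :=
  match o with
  | none => unknown
  | some w => known w

theorem kin_iff {o : Option ℤ} {a : ℤ} : kin o = known a ↔ o = some a := by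
  rcases o with _ | b
  · simp [kin]
  · simp [kin]

variable {n : ℕ}

theorem tri_list (T : List (Fin n × Fin n × Fin n)) :
    ∃ l : List (Wts n → Flat ℤ), WCirc l ∧
      l.length = 3 * T.length + (Fintype.card (Sym2 (Fin n)) + 1) ∧
      (∀ e, (fun P : Wts n => kin (P e)) ∈ l) ∧
      ∃ g ∈ l, ∀ P : Wts n, g P = known 1 ↔ ∃ t ∈ T, ∃ a b c : ℤ, P s(t.1, t.2.1) = some a ∧
        P s(t.2.1, t.2.2) = some b ∧ P s(t.1, t.2.2) = some c ∧ a + b + c = 0 := by
  induction T with
  | nil =>
    have key : ∀ L : List (Sym2 (Fin n)), WCirc (L.map (fun e (P : Wts n) => kin (P e)) ++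
        [fun _ => known 0]) := by
      intro L
      induction L with
      | nil => exact WCirc.const _ WCirc.nil
      | cons e L ih => exact WCirc.input e kin ih fun w => Or.inl rfl
    refine ⟨_, key (univ : Finset (Sym2 (Fin n))).toList, ?_, fun e => ?_, fun _ => known 0, ?_, ?_⟩
    · rw [List.length_append, List.length_map, Finset.length_toList, Finset.card_univ]
      simp
    · rw [List.mem_append, List.mem_map]
      exact Or.inl ⟨e, Finset.mem_toList.2 (mem_univ e), rfl⟩
    · rw [List.mem_append]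
      right
      simp
    · intro P
      simp
  | cons t T ih =>
    obtain ⟨l, c1, c2, c3, g, c4, c5⟩ := ih
    have d1 := WCirc.gate c1 kadd_mono (c3 s(t.1, t.2.1)) (c3 s(t.2.1, t.2.2))
    have d2 := WCirc.gate d1 kadd_mono List.mem_cons_self
      (List.mem_cons_of_mem _ (c3 s(t.1, t.2.2)))
    have d3 := WCirc.gate d2 kres_mono List.mem_cons_self
      (List.mem_cons_of_mem _ (List.mem_cons_of_mem _ c4))
    refine ⟨_, d3, ?_, fun e => ?_, _, List.mem_cons_self, fun P => ?_⟩
    · simp only [List.length_cons, c2]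
      ring
    · exact List.mem_cons_of_mem _ (List.mem_cons_of_mem _ (List.mem_cons_of_mem _ (c3 e)))
    · rw [kres_iff, c5]
      constructor
      · rintro (h | ⟨t', ht', h⟩)
        · obtain ⟨ab, c, hab, hc, hsum⟩ := kadd_eq h
          obtain ⟨a, b, ha, hb, hab2⟩ := kadd_eq hab
          exact ⟨t, List.mem_cons_self, a, b, c, kin_iff.1 ha, kin_iff.1 hb, kin_iff.1 hc,
            by rw [hab2]; exact hsum⟩
        · exact ⟨t', List.mem_cons_of_mem _ ht', h⟩
      · rintro ⟨t', ht', a, b, c, ha, hb, hc, hsum⟩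
        rcases List.mem_cons.1 ht' with rfl | ht'
        · left
          rw [kin_iff.2 ha, kin_iff.2 hb, kin_iff.2 hc, kadd_known, kadd_known, hsum]
        · exact Or.inr ⟨t', ht', a, b, c, ha, hb, hc, hsum⟩

theorem upper (n : ℕ) (hn : 1 ≤ n) :
    ∃ l : List (Wts n → Flat ℤ), WCirc l ∧ l.length ≤ 6 * n ^ 3 ∧
      SolvesE Set.univ (1 / 2) (fun _ : Unit => 1) (fun _ => l) ∧
      ∃ g ∈ l, ∀ P : Wts n, g P = known 1 ↔ Found P := by
  obtain ⟨l, c1, c2, -, g, c4, c5⟩ := tri_list (n := n)
    ((univ : Finset (Fin n × Fin n × Fin n)).filter fun t =>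
      t.1 ≠ t.2.1 ∧ t.2.1 ≠ t.2.2 ∧ t.1 ≠ t.2.2).toList
  have hg : ∀ P : Wts n, g P = known 1 ↔ Found P := by
    intro P
    rw [c5]
    constructor
    · rintro ⟨t, ht, h⟩
      rw [Finset.mem_toList, mem_filter] at ht
      exact ⟨t.1, t.2.1, t.2.2, ht.2.1, ht.2.2.1, ht.2.2.2, h⟩
    · rintro ⟨i, j, k, h1, h2, h3, h⟩
      exact ⟨(i, j, k), by
        rw [Finset.mem_toList, mem_filter]
        exact ⟨mem_univ _, h1, h2, h3⟩, h⟩
  refine ⟨l, c1, ?_, ⟨fun _ => zero_le_one, by simp, fun _ => g, fun _ => {known 1},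
    fun _ => c4, fun _ x y hxy hx => ?_, fun w _ => ⟨fun P _ hw => ?_, fun hw => ?_⟩⟩, g, c4, hg⟩
  · rw [c2, Finset.length_toList]
    have h1 := card_filter_le (univ : Finset (Fin n × Fin n × Fin n)) fun t =>
      t.1 ≠ t.2.1 ∧ t.2.1 ≠ t.2.2 ∧ t.1 ≠ t.2.2
    rw [card_univ, Fintype.card_prod, Fintype.card_prod, Fintype.card_fin] at h1
    have h2 : Fintype.card (Sym2 (Fin n)) ≤ n ^ 2 := by
      have := Fintype.card_le_of_surjective (fun p : Fin n × Fin n => s(p.1, p.2))
        (fun e => by
          induction e using Sym2.ind with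
          | _ x y => exact ⟨(x, y), rfl⟩)
      rw [Fintype.card_prod, Fintype.card_fin] at this
      rw [sq]
      exact this
    have h3 : n ^ 2 ≤ n ^ 3 := Nat.pow_le_pow_right hn (by norm_num)
    have h4 : 1 ≤ n ^ 3 := Nat.one_le_pow _ _ hn
    have h5 : n * (n * n) = n ^ 3 := by ring
    omega
  · rw [Set.mem_singleton_iff] at hx ⊢
    rw [hx, Flat.le_iff] at hxy
    rcases hxy with h | h
    · exact absurd h (by simp)
    · exact h.symm
  · have h : g P ∈ ({known 1} : Set (Flat ℤ)) := (hg P).2 hw
    show (1 / 2 + 1 / 2 : ℝ) ≤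
      ∑ ω ∈ univ.filter (fun _ : Unit => g P ∈ ({known 1} : Set (Flat ℤ))), 1
    rw [filter_true_of_mem (fun _ _ => h)]
    norm_num
  · have h : g (fun e => some (w e)) ∉ ({known 1} : Set (Flat ℤ)) := by
      rw [Set.mem_singleton_iff, hg]
      rintro ⟨i, j, k, h1, h2, h3, a, b, c, ha, hb, hc, hsum⟩
      refine hw ⟨i, j, k, h1, h2, h3, ?_⟩
      simp only [Option.some.injEq] at ha hb hc
      rw [ha, hb, hc, hsum]
    show (1 / 2 + 1 / 2 : ℝ) ≤ ∑ ω ∈ univ.filter
      (fun _ : Unit => g (fun e => some (w e)) ∉ ({known 1} : Set (Flat ℤ))), 1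
    rw [filter_true_of_mem (fun _ _ => h)]
    norm_num

end upper

end Pool.Agent.H698.UW
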